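import Mathlib
import Pool.Agent.H.MP_cd3971_co.A

set_option autoImplicit false
open Finset Module Matrix

namespace Pool.Agent.Results.MP_cd3971_co.Eighth

def Iso {F : Type} [Field F] {n : ℕ} (A : Submodule F (Matrix (Fin n) (Fin n) F))
    (U : Submodule F (Fin n → F)) : Prop :=
  ∀ u ∈ U, ∀ v ∈ U, ∀ M ∈ A, u ⬝ᵥ M *ᵥ v = 0

open Pool.Agent.H.MP_cd3971_co.A in
theorem result (F : Type) [Field F] [Fintype F] (n : ℕ)
    (A : Submodule F (Matrix (Fin n) (Fin n) F))
    (hA : ∀ M ∈ A, ∀ v : Fin n → F, v ⬝ᵥ M *ᵥ v = 0) :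
    (Set.ncard {U : Submodule F (Fin n → F) | Maximal (Iso A) U} : ℝ) ≤
      (Fintype.card F : ℝ) ^ ((n : ℝ) ^ 2 / 8 + 3 * n + 1) := by
  classical
  have hq2 : 2 ≤ Fintype.card F := Fintype.one_lt_card
  have hq : (2 : ℝ) ≤ Fintype.card F := by exact_mod_cast hq2
  have hq0 : (0 : ℝ) < Fintype.card F := by linarith
  have sym : ∀ M ∈ A, ∀ u v : Fin n → F, u ⬝ᵥ M *ᵥ v = 0 → v ⬝ᵥ M *ᵥ u = 0 := by
    intro M hM u v h
    have := hA M hM (u + v)
    rw [mulVec_add, dotProduct_add, add_dotProduct, add_dotProduct, hA M hM u, hA M hM v,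
      h] at this
    simpa using this
  have hmax : ∀ U, Maximal (Iso A) U → perp A U = U := by
    intro U hU
    refine le_antisymm (fun v hv => ?_) fun v hv u hu => hU.prop u hu v hv
    refine hU.le_of_ge (y := U ⊔ Submodule.span F {v}) ?_ le_sup_left
      (Submodule.mem_sup_right (Submodule.mem_span_singleton_self v))
    intro x hx y hy M hM
    obtain ⟨a, ha, _, hb, rfl⟩ := Submodule.mem_sup.1 hx
    obtain ⟨s, rfl⟩ := Submodule.mem_span_singleton.1 hb
    obtain ⟨c, hc, _, hb, rfl⟩ := Submodule.mem_sup.1 hy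
    obtain ⟨t, rfl⟩ := Submodule.mem_span_singleton.1 hb
    simp only [mulVec_add, dotProduct_add, add_dotProduct, mulVec_smul, dotProduct_smul,
      smul_dotProduct, hU.prop a ha c hc M hM, hv a ha M hM, sym M hM _ _ (hv c hc M hM),
      hA M hM v, smul_zero, add_zero]
  have hsp : ∀ S : Set (Fin n → F), perp A (Submodule.span F S) = perp A S := by
    intro S
    refine le_antisymm (fun v hv u hu => hv u (Submodule.subset_span hu)) fun v hv u hu M hM => ?_
    induction hu using Submodule.span_induction with
    | mem x h => exact hv x h M hM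
    | zero => simp
    | add x y _ _ a b => rw [add_dotProduct, a, b, add_zero]
    | smul c x _ a => rw [smul_dotProduct, a, smul_zero]
  let S := (Set.toFinite {U : Submodule F (Fin n → F) | Maximal (Iso A) U}).toFinset
  have hS : ∀ U, U ∈ S ↔ Maximal (Iso A) U := fun U => by simp [S]
  have key : ∀ d ≤ n, ((S.filter fun U : Submodule F (Fin n → F) => finrank F U = d).card : ℝ) ≤
      (Fintype.card F : ℝ) ^ ((n : ℝ) ^ 2 / 8 + 2 * n + 1) := by
    intro d hd
    let B := univ.filter fun u : Fin d → Fin n → F =>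
      Submodule.span F (Set.range u) ∈ S.filter fun U : Submodule F (Fin n → F) => finrank F U = d
    have h1 : Fintype.card F ^ (d * (d - 1)) * (S.filter fun U : Submodule F (Fin n → F) => finrank F U = d).card ≤
        B.card := by
      refine mul_card_image_le_card_of_maps_to (f := fun u => Submodule.span F (Set.range u))
        (fun u hu => (mem_filter.1 hu).2) _ fun U hU => ?_
      have hU2 : finrank F U = d := (mem_filter.1 hU).2
      have c := card_linearIndependent (K := F) (V := U) hU2.ge
      rw [hU2] at c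
      have : Fintype.card F ^ (d * (d - 1)) ≤ ∏ i : Fin d, (Fintype.card F ^ d -
          Fintype.card F ^ i.val) := by
        rw [mul_comm, pow_mul]
        refine le_trans (by simp) (pow_card_le_prod _ _ (Fintype.card F ^ (d - 1)) fun i _ => ?_)
        have a1 : Fintype.card F ^ i.val ≤ Fintype.card F ^ (d - 1) :=
          Nat.pow_le_pow_right (by omega) (by omega)
        have a2 : Fintype.card F ^ d = Fintype.card F ^ (d - 1) * Fintype.card F := by
          rw [← pow_succ]
          congr 1
          have := i.2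
          omega
        have a3 := Nat.mul_le_mul_left (Fintype.card F ^ (d - 1)) hq2
        omega
      refine this.trans ?_
      rw [← c, ← Nat.card_eq_finsetCard]
      have hs : ∀ s : {s : Fin d → U // LinearIndependent F s},
          Submodule.span F (Set.range fun i => (s.1 i : Fin n → F)) = U := fun s =>
        Submodule.eq_of_le_of_finrank_eq (Submodule.span_le.2 (by
          rintro _ ⟨i, rfl⟩
          exact (s.1 i).2)) (by
          rw [hU2]
          exact (finrank_span_eq_card (s.2.map' U.subtype U.ker_subtype)).trans (by simp))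
      refine Nat.card_le_card_of_injective (fun s => ⟨fun i => s.1 i, by
        exact mem_filter.2 ⟨mem_filter.2 ⟨mem_univ _, (hs s).symm ▸ hU⟩, hs s⟩⟩) fun s t e => ?_
      ext i : 2
      exact Subtype.ext (congrFun (congrArg Subtype.val e) i)
    let C := univ.filter fun u : Fin d → Fin n → F => Ch A u ∧ 2 * sm A u ≤ d * (n + d) + n
    have h2 : B ⊆ C ∪ C.image fun u => u ∘ Fin.rev := by
      intro u hu
      obtain ⟨a, b⟩ := mem_filter.1 (mem_filter.1 hu).2
      have a := (hS _).1 a
      have r := rev A u (by rw [← hsp, hmax _ a, b])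
      have c : ∀ i j, ∀ M ∈ A, u i ⬝ᵥ M *ᵥ u j = 0 := fun i j =>
        a.prop _ (Submodule.subset_span ⟨i, rfl⟩) _ (Submodule.subset_span ⟨j, rfl⟩)
      rw [mem_union]
      by_cases h : 2 * sm A u ≤ d * (n + d) + n
      · refine Or.inl (mem_filter.2 ⟨mem_univ _, fun i => ?_, h⟩)
        rintro _ ⟨j, -, rfl⟩
        exact c _ _
      · refine Or.inr (mem_image.2 ⟨u ∘ Fin.rev, mem_filter.2 ⟨mem_univ _, fun i => ?_,
          by omega⟩, by ext; simp⟩)
        rintro _ ⟨j, -, rfl⟩
        exact c _ _
    have h3 : B.card ≤ 2 * C.card := by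
      have := (card_le_card h2).trans (card_union_le _ _)
      have := card_image_le (s := C) (f := fun u => u ∘ Fin.rev)
      omega
    have h4 := count A d (d * (n + d) + n)
    have h5 : (Fintype.card F : ℝ) ^ (d * (d - 1)) *
        (S.filter fun U : Submodule F (Fin n → F) => finrank F U = d).card ≤ 2 * C.card := by
      exact_mod_cast h1.trans h3
    refine le_of_mul_le_mul_left (h5.trans ?_) (by positivity)
    refine (mul_le_mul hq h4 (by positivity) hq0.le).trans ?_
    rw [← Real.rpow_natCast, ← Real.rpow_add hq0, ← Real.rpow_one_add' hq0.le (by positivity)]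
    refine Real.rpow_le_rpow_of_exponent_le (by linarith) ?_
    have d1 : (d : ℝ) ≤ n := by exact_mod_cast hd
    have d2 : (d : ℝ) * d - d ≤ (d * (d - 1) : ℕ) := by
      cases d with
      | zero => simp
      | succ d =>
        simp only [Nat.add_sub_cancel]
        push_cast
        linarith
    push_cast at d2 ⊢
    nlinarith [sq_nonneg ((n : ℝ) - 2 * d), Nat.cast_nonneg (α := ℝ) d]
  rw [Set.ncard_eq_toFinset_card _ (Set.toFinite _)]
  have : S.card = ∑ d ∈ range (n + 1), (S.filter fun U : Submodule F (Fin n → F) => finrank F U = d).card :=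
    card_eq_sum_card_fiberwise fun U _ => by
      simpa [Nat.lt_succ_iff] using Submodule.finrank_le U
  show (S.card : ℝ) ≤ _
  rw [this]
  push_cast
  refine (sum_le_card_nsmul _ _ _ fun d hd => key d (by simpa [Nat.lt_succ_iff] using hd)).trans ?_
  rw [card_range, nsmul_eq_mul, show (n : ℝ) ^ 2 / 8 + 3 * n + 1 = n + (n ^ 2 / 8 + 2 * n + 1) by
    ring, Real.rpow_add hq0 n, Real.rpow_natCast]
  refine mul_le_mul_of_nonneg_right ?_ (by positivity)
  have : n + 1 ≤ Fintype.card F ^ n := (Nat.lt_pow_self (by omega))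
  exact_mod_cast this

end Pool.Agent.Results.MP_cd3971_co.Eighth
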